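import Pool.Agent.H37.CP.Targets

/-! # ETH for cutting planes: several phases (row ABSC) -/

namespace Pool.Agent.H33.CPE

open Finset Pool.Agent.H37.CP

lemma gg_add (Y X : Type) [Fintype Y] [Fintype X] (δ : ℝ) (a b : ℕ) :
    gg Y X δ (a + b) = 8 ^ b * gg Y X δ a := by
  unfold gg
  rw [pow_add]
  ring

lemma gg_nonneg (Y X : Type) [Fintype Y] [Fintype X] (δ : ℝ) (hδ : 0 ≤ δ) (a : ℕ) :
    0 ≤ gg Y X δ a := by
  unfold gg
  positivity

lemma row_nd {Y X V : Type} (w : V → X → ℝ) (u : V → Y → ℝ) (v : V) (L : List (Cmp Y X))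
    (B : Finset X) (y : Y) (x : X) (hx : x ∈ row (nd w u v :: L) B y) : w v x < u v y := by
  classical
  unfold row at hx
  have h := (mem_filter.1 hx).2 (nd w u v) List.mem_cons_self
  unfold Cmp.H nd at h
  simpa using h

theorem pf_ABSC (hS : S_PHS) (h0 : S_PH0) : S_ABSC := by
  classical
  intro Y X ι V _ _ _ K lY lX δ hδ hK hmass hY w u dp hdag B v hv t p hdp
  obtain ⟨s, hs⟩ : ∃ s : ℝ, s = Fintype.card V := ⟨_, rfl⟩
  have hs1 : 1 ≤ s := by
    have : 0 < Fintype.card V := Fintype.card_pos_iff.2 ⟨v⟩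
    rw [hs]
    exact_mod_cast this
  have claim : ∀ (t : ℕ) (v : V) (L : List (Cmp Y X)), dp v ≤ (t + 1) * p →
      (∀ y, ∀ x ∈ row L B y, w v x < u v y) →
      ∑ y, ∑ x ∈ row L B y, K y x ≤ 2 * (16 * s) ^ t * 16 ^ p * gg Y X δ L.length := by
    intro t
    induction t with
    | zero =>
      intro v L hdv hL
      have h := h0 Y X ι V K lY lX δ hδ hK w u dp hdag B p v L (by simpa using hdv) hL
      refine h.trans ?_
      rw [gg_add, ← mul_assoc, ← mul_pow]
      have e : (2 : ℝ) * 8 = 16 := by norm_num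
      rw [e, pow_zero, mul_one]
      have hg := gg_nonneg Y X δ hδ L.length
      have : 0 ≤ (16 : ℝ) ^ p * gg Y X δ L.length := by positivity
      linarith
    | succ t ih =>
      intro v L hdv hL
      have h := hS Y X ι V K lY lX δ hδ hK w u dp hdag B ((t + 1) * p) p v L
        (by rw [← Nat.succ_mul]; exact hdv) hL
      have hg := gg_nonneg Y X δ hδ L.length
      have hterm : ∀ v' ∈ univ.filter (fun v' => dp v' ≤ (t + 1) * p),
          ∑ y, ∑ x ∈ row (nd w u v' :: L) B y, K y x ≤
            2 * (16 * s) ^ t * 16 ^ p * (8 * gg Y X δ L.length) := by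
        intro v' hv'
        have h1 := ih v' (nd w u v' :: L) (mem_filter.1 hv').2
          (fun y x hx => row_nd w u v' L B y x hx)
        rw [List.length_cons, gg_add, pow_one] at h1
        exact h1
      have hsum := Finset.sum_le_sum hterm
      rw [Finset.sum_const, nsmul_eq_mul] at hsum
      have hcard : ((univ.filter (fun v' => dp v' ≤ (t + 1) * p)).card : ℝ) ≤ s := by
        rw [hs]
        exact_mod_cast Finset.card_le_univ _
      have hpos : 0 ≤ 2 * (16 * s) ^ t * 16 ^ p * (8 * gg Y X δ L.length) := by positivity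
      have h2 := mul_le_mul_of_nonneg_right hcard hpos
      have e1 : gg Y X δ (L.length + p + 1) = 8 * (8 ^ p * gg Y X δ L.length) := by
        rw [gg_add, gg_add, pow_one]
      rw [e1, ← hs] at h
      have e2 : (s + 1) * 2 ^ p * (8 * (8 ^ p * gg Y X δ L.length)) =
          8 * (s + 1) * (16 ^ p * gg Y X δ L.length) := by
        have : (16 : ℝ) ^ p = 2 ^ p * 8 ^ p := by rw [← mul_pow]; norm_num
        rw [this]
        ring
      have e3 : s * (2 * (16 * s) ^ t * 16 ^ p * (8 * gg Y X δ L.length)) =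
          (16 * s) ^ (t + 1) * (16 ^ p * gg Y X δ L.length) := by
        rw [pow_succ]
        ring
      have h3 : 8 * (s + 1) ≤ (16 * s) ^ (t + 1) := by
        calc 8 * (s + 1) ≤ 16 * s := by linarith
          _ = (16 * s) ^ 1 := (pow_one _).symm
          _ ≤ (16 * s) ^ (t + 1) := pow_le_pow_right₀ (by linarith) (by omega)
      have h4 := mul_le_mul_of_nonneg_right h3
        (by positivity : 0 ≤ (16 : ℝ) ^ p * gg Y X δ L.length)
      rw [e2] at h
      rw [e3] at h2
      have e4 : 2 * (16 * s) ^ (t + 1) * 16 ^ p * gg Y X δ L.length =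
          (16 * s) ^ (t + 1) * (16 ^ p * gg Y X δ L.length) +
            (16 * s) ^ (t + 1) * (16 ^ p * gg Y X δ L.length) := by ring
      rw [e4]
      linarith
  have hrow : ∀ y : Y, row ([] : List (Cmp Y X)) B y = B := by
    intro y
    unfold row
    simp
  have key := claim t v [] hdp (fun y x hx => by
    rw [hrow] at hx
    exact hv y x hx)
  simp only [hrow, List.length_nil] at key
  rw [Finset.sum_comm, Finset.sum_congr rfl fun x _ => hmass x, Finset.sum_const,
    nsmul_eq_mul] at key
  have hYr : (0 : ℝ) < Fintype.card Y := by exact_mod_cast hY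
  have e5 : 2 * (16 * s) ^ t * 16 ^ p * gg Y X δ 0 =
      (2 * (16 * s) ^ t * 16 ^ p * δ * Fintype.card X) * Fintype.card Y := by
    unfold gg
    rw [pow_zero]
    ring
  rw [e5] at key
  rw [← hs]
  exact le_of_mul_le_mul_right key hYr

end Pool.Agent.H33.CPE
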