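import Pool.Agent.H37.CP.Targets

/-! # ETH for cutting planes: the binary blocks of an initial segment (row BLK) -/

namespace Pool.Agent.H33.CPE

open Finset Pool.Agent.H37.CP

lemma sum_double (f : ℕ → ℝ) (n : ℕ) :
    ∑ i ∈ range n, (f (2 * i) + f (2 * i + 1)) = ∑ i ∈ range (2 * n), f i := by
  induction n with
  | zero => simp
  | succ n ih =>
    rw [Finset.sum_range_succ, ih]
    have e : 2 * (n + 1) = 2 * n + 1 + 1 := by ring
    rw [e, Finset.sum_range_succ, Finset.sum_range_succ]
    ring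

lemma sum_double_Ico (f : ℕ → ℝ) {a b : ℕ} (h : a ≤ b) :
    ∑ i ∈ Ico a b, (f (2 * i) + f (2 * i + 1)) = ∑ i ∈ Ico (2 * a) (2 * b), f i := by
  rw [Finset.sum_Ico_eq_sub _ h, Finset.sum_Ico_eq_sub _ (Nat.mul_le_mul_left 2 h), sum_double,
    sum_double]

theorem pf_BLK : S_BLK := by
  intro L
  induction L with
  | zero =>
    intro s f hs
    have : s = 0 := by simpa using hs
    rw [this]
    simp
  | succ L ih =>
    intro s f hs
    have hs' : s / 2 < 2 ^ L := by
      rw [Nat.div_lt_iff_lt_mul (by norm_num), ← pow_succ]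
      exact hs
    have h := ih (s / 2) (fun i => f (2 * i) + f (2 * i + 1)) hs'
    rw [sum_double] at h
    rw [Finset.sum_range_succ']
    have hterm : ∀ l ∈ range L, (if s / 2 ^ (l + 1) % 2 = 1 then
        ∑ i ∈ Ico ((s / 2 ^ (l + 1) - 1) * 2 ^ (l + 1)) (s / 2 ^ (l + 1) * 2 ^ (l + 1)), f i
        else 0) = if s / 2 / 2 ^ l % 2 = 1 then
        ∑ i ∈ Ico ((s / 2 / 2 ^ l - 1) * 2 ^ l) (s / 2 / 2 ^ l * 2 ^ l),
          (f (2 * i) + f (2 * i + 1)) else 0 := by
      intro l _
      have e1 : s / 2 ^ (l + 1) = s / 2 / 2 ^ l := by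
        rw [Nat.div_div_eq_div_mul, pow_succ, mul_comm]
      rw [e1]
      split_ifs
      · rw [sum_double_Ico]
        · congr 2 <;> rw [pow_succ] <;> ring
        · exact Nat.mul_le_mul_right _ (Nat.sub_le _ _)
      · rfl
    rw [Finset.sum_congr rfl hterm, ← h]
    rw [pow_zero, Nat.div_one, mul_one, mul_one]
    rcases Nat.mod_two_eq_zero_or_one s with h2 | h2
    · rw [if_neg (by omega), add_zero]
      congr 2
      omega
    · rw [if_pos h2]
      have e2 : s = 2 * (s / 2) + 1 := by omega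
      have e3 : Ico (s - 1) s = {s - 1} := by
        ext i
        simp only [mem_Ico, mem_singleton]
        omega
      rw [e3, Finset.sum_singleton]
      have e4 : ∑ i ∈ range s, f i = ∑ i ∈ range (2 * (s / 2) + 1), f i := by
        rw [← e2]
      rw [e4, Finset.sum_range_succ]
      congr 2
      omega

end Pool.Agent.H33.CPE
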