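import Pool.Agent.H37.CP.Targets

/-! # ETH for cutting planes: the cells of one comparison (row CELL) -/

namespace Pool.Agent.H33.CPE

open Finset Pool.Agent.H37.CP

lemma cell_enum {X : Type} (B : Finset X) (key : X → ℝ) :
    ∃ idx : X → ℕ, Set.InjOn idx B ∧ (∀ x ∈ B, idx x < B.card) ∧
      (∀ k < B.card, ∃ x ∈ B, idx x = k) ∧
      ∀ x ∈ B, ∀ x' ∈ B, key x < key x' → idx x < idx x' := by
  classical
  let e0 := B.equivFin
  let f : Fin B.card → ℝ := fun k => key (e0.symm k)
  let σ := Tuple.sort f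
  have hmono : Monotone (f ∘ σ) := Tuple.monotone_sort f
  have hval : ∀ (x : X) (h : x ∈ B), f (σ (σ.symm (e0 ⟨x, h⟩))) = key x := by
    intro x h
    rw [Equiv.apply_symm_apply]
    show key (e0.symm (e0 ⟨x, h⟩)) = key x
    rw [Equiv.symm_apply_apply]
  refine ⟨fun x => if h : x ∈ B then ((σ.symm (e0 ⟨x, h⟩) : Fin B.card) : ℕ) else 0,
    ?_, ?_, ?_, ?_⟩
  · intro x hx x' hx' hxx
    have hx := mem_coe.1 hx
    have hx' := mem_coe.1 hx'
    simp only [hx, hx', dif_pos] at hxx
    have h1 := σ.symm.injective (Fin.ext hxx)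
    have h2 := e0.injective h1
    exact congrArg Subtype.val h2
  · intro x hx
    simp only [hx, dif_pos]
    exact (σ.symm (e0 ⟨x, hx⟩)).2
  · intro k hk
    refine ⟨(e0.symm (σ ⟨k, hk⟩) : X), (e0.symm (σ ⟨k, hk⟩)).2, ?_⟩
    simp only [(e0.symm (σ ⟨k, hk⟩)).2, dif_pos]
    rw [Subtype.coe_eta, Equiv.apply_symm_apply, Equiv.symm_apply_apply]
  · intro x hx x' hx' hlt
    simp only [hx, hx', dif_pos]
    by_contra hc
    push Not at hc
    have h1 := hmono (show σ.symm (e0 ⟨x', hx'⟩) ≤ σ.symm (e0 ⟨x, hx⟩) from hc)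
    simp only [Function.comp_apply] at h1
    rw [hval, hval] at h1
    linarith

lemma lower_range (S : Finset ℕ) (h : ∀ i ∈ S, ∀ j ≤ i, j ∈ S) : S = range S.card := by
  refine Finset.eq_of_subset_of_card_le ?_ (by rw [card_range])
  intro i hi
  rw [mem_range]
  have h1 : range (i + 1) ⊆ S := by
    intro j hj
    exact h i hi j (by rw [mem_range] at hj; omega)
  have h2 := Finset.card_le_card h1
  rw [card_range] at h2
  omega

open Classical in
lemma cell_fib {X : Type} (B : Finset X) (idx : X → ℕ) (J : Finset ℕ) (f : X → ℝ) :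
    ∑ k ∈ J, ∑ x ∈ B.filter (fun x => idx x = k), f x =
      ∑ x ∈ B.filter (fun x => idx x ∈ J), f x := by
  rw [Finset.sum_filter, Finset.sum_congr rfl fun k _ => Finset.sum_filter _ _,
    Finset.sum_comm]
  refine Finset.sum_congr rfl fun x _ => ?_
  rw [Finset.sum_ite_eq]

theorem pf_CELL (hB : S_BLK) : S_CELL := by
  classical
  intro Y X _ B c
  obtain ⟨idx, hinj, hlt, hsur, hkey⟩ := cell_enum B
    (fun x => if c.pos = true then c.w x else -(c.w x))
  obtain ⟨m, hm⟩ : ∃ m, m = B.card := ⟨_, rfl⟩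
  rw [← hm] at hlt hsur
  -- the rows are initial segments
  have hHlow : ∀ y, ∀ x ∈ B, ∀ x' ∈ B, c.H y x → idx x' ≤ idx x → c.H y x' := by
    intro y x hx x' hx' hH hle
    have h1 : ¬ ((if c.pos = true then c.w x else -(c.w x)) <
        (if c.pos = true then c.w x' else -(c.w x'))) := by
      intro h
      have := hkey x hx x' hx' h
      omega
    unfold Cmp.H at hH ⊢
    by_cases hp : c.pos = true
    · rw [if_pos hp] at hH ⊢
      rw [if_pos hp, if_pos hp] at h1
      push Not at h1
      linarith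
    · rw [if_neg hp] at hH ⊢
      rw [if_neg hp, if_neg hp] at h1
      push Not at h1 hH ⊢
      linarith
  have hrow : ∀ y x, x ∈ row [c] B y ↔ x ∈ B ∧ c.H y x := by
    intro y x
    unfold row
    rw [mem_filter]
    simp
  have hrowB : ∀ y, row [c] B y ⊆ B := fun y x hx => ((hrow y x).1 hx).1
  have himg : ∀ y, (row [c] B y).image idx = range (row [c] B y).card := by
    intro y
    have h1 : ((row [c] B y).image idx).card = (row [c] B y).card :=
      Finset.card_image_of_injOn (hinj.mono (by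
        intro x hx
        exact hrowB y (mem_coe.1 hx)))
    rw [← h1]
    apply lower_range
    intro i hi j hj
    obtain ⟨x, hx, rfl⟩ := mem_image.1 hi
    have hxB := hrowB y hx
    obtain ⟨x', hx', rfl⟩ := hsur j (lt_of_le_of_lt hj (hlt x hxB))
    exact mem_image.2 ⟨x', (hrow y x').2 ⟨hx', hHlow y x hxB x' hx' ((hrow y x).1 hx).2 hj⟩, rfl⟩
  have hrow2 : ∀ y, row [c] B y =
      B.filter (fun x => idx x ∈ range (row [c] B y).card) := by
    intro y
    ext x
    rw [mem_filter, ← himg y]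
    constructor
    · intro hx
      exact ⟨hrowB y hx, mem_image_of_mem idx hx⟩
    · rintro ⟨hx, hx2⟩
      obtain ⟨x', hx', he⟩ := mem_image.1 hx2
      have := hinj (mem_coe.2 (hrowB y hx')) (mem_coe.2 hx) he
      rw [← this]
      exact hx'
  have hsm : ∀ y, (row [c] B y).card ≤ m := fun y => by
    rw [hm]; exact Finset.card_le_card (hrowB y)
  rcases Nat.eq_zero_or_pos m with h0 | hpos
  · refine ⟨0, 0, fun _ _ => ∅, fun _ _ => 0, fun _ _ => Finset.empty_subset _, ?_, ?_, ?_⟩
    · intro y l hl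
      omega
    · intro y f
      have : row [c] B y = ∅ := by
        rw [← Finset.card_eq_zero]
        have := hsm y
        omega
      rw [this]
      simp
    · intro l hl
      omega
  obtain ⟨L0, hL0⟩ : ∃ L0, L0 = Nat.log 2 m := ⟨_, rfl⟩
  have hL1 : 2 ^ L0 ≤ m := by rw [hL0]; exact Nat.pow_log_le_self 2 (by omega)
  have hL2 : m < 2 ^ (L0 + 1) := by rw [hL0]; exact Nat.lt_pow_succ_log_self (by norm_num) m
  refine ⟨L0 + 1, m + 1, fun l i => B.filter (fun x => idx x / 2 ^ l = i),
    fun y l => if (row [c] B y).card / 2 ^ l % 2 = 1 then (row [c] B y).card / 2 ^ l - 1 else m,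
    fun l i => Finset.filter_subset _ _, ?_, ?_, ?_⟩
  · intro y l _
    have h1 := hsm y
    have h2 := Nat.div_le_self (row [c] B y).card (2 ^ l)
    show (if (row [c] B y).card / 2 ^ l % 2 = 1 then (row [c] B y).card / 2 ^ l - 1 else m) <
      m + 1
    split_ifs
    · omega
    · omega
  · intro y f
    have hs := hsm y
    have h1 : ∑ x ∈ row [c] B y, f x = ∑ k ∈ range (row [c] B y).card,
        ∑ x ∈ B.filter (fun x => idx x = k), f x := by
      rw [cell_fib, ← hrow2 y]
    rw [h1, hB (L0 + 1) _ _ (lt_of_le_of_lt hs hL2)]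
    refine Finset.sum_congr rfl fun l _ => ?_
    dsimp only
    obtain ⟨s, hsdef⟩ : ∃ s, s = (row [c] B y).card := ⟨_, rfl⟩
    rw [← hsdef]
    rw [← hsdef] at hs
    have hpow : 0 < 2 ^ l := by positivity
    by_cases hodd : s / 2 ^ l % 2 = 1
    · rw [if_pos hodd, if_pos hodd, cell_fib]
      refine Finset.sum_congr ?_ fun _ _ => rfl
      ext x
      rw [mem_filter, mem_filter, mem_Ico]
      refine and_congr_right fun _ => ?_
      obtain ⟨q, hqd⟩ : ∃ q, q = s / 2 ^ l := ⟨_, rfl⟩
      rw [← hqd] at hodd ⊢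
      have hq : 1 ≤ q := by omega
      constructor
      · rintro ⟨h2, h3⟩
        have h4 : q - 1 ≤ idx x / 2 ^ l := (Nat.le_div_iff_mul_le hpow).2 h2
        have h5 : idx x / 2 ^ l < q := (Nat.div_lt_iff_lt_mul hpow).2 h3
        omega
      · intro h2
        constructor
        · exact (Nat.le_div_iff_mul_le hpow).1 (by omega)
        · exact (Nat.div_lt_iff_lt_mul hpow).1 (by omega)
    · rw [if_neg hodd, if_neg hodd]
      symm
      apply Finset.sum_eq_zero
      intro x hx
      exfalso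
      obtain ⟨hxB, hx2⟩ := mem_filter.1 hx
      have h2 := hlt x hxB
      have h3 := Nat.div_le_self (idx x) (2 ^ l)
      omega
  · intro l hl
    have hsum : ∑ i ∈ range (m + 1), ((B.filter (fun x => idx x / 2 ^ l = i)).card : ℝ) ≤ m := by
      have h1 : ∑ i ∈ range (m + 1), ((B.filter (fun x => idx x / 2 ^ l = i)).card : ℝ) =
          ∑ k ∈ range (m + 1), ∑ x ∈ B.filter (fun x => idx x / 2 ^ l = k), (1 : ℝ) := by
        refine Finset.sum_congr rfl fun k _ => ?_
        rw [Finset.sum_const, nsmul_eq_mul, mul_one]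
      rw [h1, cell_fib B (fun x => idx x / 2 ^ l), Finset.sum_const, nsmul_eq_mul, mul_one, hm]
      exact_mod_cast Finset.card_le_card (Finset.filter_subset _ _)
    have hone : ∀ i, ((B.filter (fun x => idx x / 2 ^ l = i)).card : ℝ) ≤ 2 ^ l := by
      intro i
      have hpow : 0 < 2 ^ l := by positivity
      have h1 : (B.filter (fun x => idx x / 2 ^ l = i)).card ≤
          (Ico (i * 2 ^ l) ((i + 1) * 2 ^ l)).card := by
        refine Finset.card_le_card_of_injOn idx ?_ ?_
        · intro x hx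
          obtain ⟨_, hx2⟩ := mem_filter.1 (mem_coe.1 hx)
          rw [mem_coe, mem_Ico]
          exact ⟨(Nat.le_div_iff_mul_le hpow).1 hx2.ge,
            (Nat.div_lt_iff_lt_mul hpow).1 (by omega)⟩
        · intro x hx x' hx' he
          exact hinj (mem_coe.2 (mem_filter.1 (mem_coe.1 hx)).1)
            (mem_coe.2 (mem_filter.1 (mem_coe.1 hx')).1) he
      rw [Nat.card_Ico] at h1
      have e : (i + 1) * 2 ^ l - i * 2 ^ l = 2 ^ l := by
        rw [Nat.add_mul, one_mul, Nat.add_sub_cancel_left]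
      rw [e] at h1
      exact_mod_cast h1
    have hsq : ∑ i ∈ range (m + 1), ((B.filter (fun x => idx x / 2 ^ l = i)).card : ℝ) ^ 2 ≤
        2 ^ l * m := by
      calc ∑ i ∈ range (m + 1), ((B.filter (fun x => idx x / 2 ^ l = i)).card : ℝ) ^ 2
          ≤ ∑ i ∈ range (m + 1), 2 ^ l *
            ((B.filter (fun x => idx x / 2 ^ l = i)).card : ℝ) := by
            refine Finset.sum_le_sum fun i _ => ?_
            rw [sq]
            exact mul_le_mul_of_nonneg_right (hone i) (Nat.cast_nonneg _)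
        _ = 2 ^ l * ∑ i ∈ range (m + 1),
            ((B.filter (fun x => idx x / 2 ^ l = i)).card : ℝ) := by rw [Finset.mul_sum]
        _ ≤ 2 ^ l * m := mul_le_mul_of_nonneg_left hsum (by positivity)
    have hL1r : (2 : ℝ) ^ L0 ≤ m := by exact_mod_cast hL1
    calc (∑ i ∈ range (m + 1), ((B.filter (fun x => idx x / 2 ^ l = i)).card : ℝ) ^ 2) *
          2 ^ (L0 + 1 - 1 - l) ≤ (2 ^ l * m) * 2 ^ (L0 + 1 - 1 - l) :=
          mul_le_mul_of_nonneg_right hsq (by positivity)
      _ = (2 : ℝ) ^ L0 * m := by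
          have e : L0 = l + (L0 + 1 - 1 - l) := by omega
          nth_rewrite 2 [e]
          rw [pow_add]
          ring
      _ ≤ m * m := mul_le_mul_of_nonneg_right hL1r (Nat.cast_nonneg _)
      _ = (B.card : ℝ) ^ 2 := by rw [hm]; ring

end Pool.Agent.H33.CPE
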