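import Pool.Agent.H37.CP.Targets

/-! # ETH for cutting planes: one phase (row PHS) -/

namespace Pool.Agent.H33.CPE

open Finset Pool.Agent.H37.CP

lemma phs_row {Y X V : Type} (w : V → X → ℝ) (u : V → Y → ℝ) (v : V) (L : List (Cmp Y X))
    (B : Finset X) (y : Y) (x : X) :
    x ∈ row (nd w u v :: L) B y ↔ x ∈ row L B y ∧ w v x < u v y := by
  classical
  unfold row
  rw [mem_filter, mem_filter, List.forall_mem_cons]
  have h : (nd w u v).H y x ↔ w v x < u v y := by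
    unfold Cmp.H nd
    simp
  rw [h]
  tauto

lemma phs_gg (Y X : Type) [Fintype Y] [Fintype X] (δ : ℝ) (hδ : 0 ≤ δ) {a b : ℕ} (h : a ≤ b) :
    gg Y X δ a ≤ gg Y X δ b := by
  unfold gg
  have h1 : (8 : ℝ) ^ a ≤ 8 ^ b := pow_le_pow_right₀ (by norm_num) h
  gcongr

lemma phs_gg0 (Y X : Type) [Fintype Y] [Fintype X] (δ : ℝ) (hδ : 0 ≤ δ) (a : ℕ) :
    0 ≤ gg Y X δ a := by
  unfold gg
  positivity

lemma list_sum_le {β : Type} (P : List β) (f g : β → ℝ) (h : ∀ a ∈ P, f a ≤ g a) :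
    (P.map f).sum ≤ (P.map g).sum := List.sum_le_sum h

lemma list_sum_comm {β V : Type} (F : Finset V) (P : List β) (f : V → β → ℝ) :
    (P.map (fun a => ∑ v ∈ F, f v a)).sum = ∑ v ∈ F, (P.map (f v)).sum := by
  induction P with
  | nil => simp
  | cons a P ih =>
    simp only [List.map_cons, List.sum_cons]
    rw [ih, Finset.sum_add_distrib]

theorem pf_PHS (hE : S_ERR) (hP : S_PIE) : S_PHS := by
  classical
  intro Y X ι V _ _ _ K lY lX δ hδ hK w u dp hdag B D p v L hdv hL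
  obtain ⟨P, hPlen, hPprop, hPsum⟩ := hP Y X ι V lY lX w u dp hdag B D p v L hdv hL
  obtain ⟨G, hG⟩ : ∃ G, G = gg Y X δ (L.length + p + 1) := ⟨_, rfl⟩
  have hG0 : 0 ≤ G := by rw [hG]; exact phs_gg0 Y X δ hδ _
  obtain ⟨s, hs⟩ : ∃ s : ℝ, s = Fintype.card V := ⟨_, rfl⟩
  have hs0 : 0 ≤ s := by rw [hs]; exact Nat.cast_nonneg _
  obtain ⟨F, hF⟩ : ∃ F : Finset V, F = univ.filter (fun v' => dp v' ≤ D) := ⟨_, rfl⟩
  have hFc : (F.card : ℝ) ≤ s := by
    rw [hs]
    exact_mod_cast Finset.card_le_univ _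
  rw [← hG, ← hs]
  have hFeq : ∑ v' ∈ univ.filter (fun v' => dp v' ≤ D),
      ∑ y, ∑ x ∈ row (nd w u v' :: L) B y, K y x =
      ∑ v' ∈ F, ∑ y, ∑ x ∈ row (nd w u v' :: L) B y, K y x := by rw [hF]
  refine le_of_le_of_eq ?_ (congrArg (· + (s + 1) * 2 ^ p * G) hFeq.symm)
  show _ ≤ ∑ v' ∈ F, ∑ y, ∑ x ∈ row (nd w u v' :: L) B y, K y x + (s + 1) * 2 ^ p * G
  -- the sums over the triangles
  have hrow2 : ∀ (v' : V) (L' : List (Cmp Y X)),
      ∑ y, ∑ x ∈ row (nd w u v' :: L') B y, K y x =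
        ∑ y, ∑ x ∈ row L' B y, if w v' x < u v' y then K y x else 0 := by
    intro v' L'
    refine Finset.sum_congr rfl fun y _ => ?_
    rw [← Finset.sum_filter]
    refine Finset.sum_congr ?_ fun _ _ => rfl
    ext x
    rw [phs_row, mem_filter]
  have hnode : ∀ v', ∑ y, ∑ x ∈ row (nd w u v' :: L) B y, K y x =
      (P.map (fun π => ∑ y, ∑ x ∈ row (nd w u v' :: π.1) B y, K y x)).sum := by
    intro v'
    rw [hrow2, hPsum (fun y x => if w v' x < u v' y then K y x else 0)]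
    congr 1
    refine List.map_congr_left fun π _ => ?_
    rw [hrow2]
  -- one piece
  have hpiece : ∀ π ∈ P, ∑ y, ∑ x ∈ row π.1 B y, K y x ≤
      ∑ v' ∈ F, ∑ y, ∑ x ∈ row (nd w u v' :: π.1) B y, K y x + (s + 1) * G := by
    intro π hπ
    obtain ⟨hlen, hin, hor⟩ := hPprop π hπ
    have hlow : ∀ v', -G ≤ ∑ y, ∑ x ∈ row (nd w u v' :: π.1) B y, K y x := by
      intro v'
      have h1 := (hE Y X ι K lY lX δ hδ hK (nd w u v' :: π.1) B).1
      have h2 : gg Y X δ (nd w u v' :: π.1).length ≤ G := by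
        rw [hG]
        refine phs_gg Y X δ hδ ?_
        rw [List.length_cons]
        omega
      linarith
    rcases hor with hd | hleaf
    · have hmem : π.2 ∈ F := by rw [hF]; exact mem_filter.2 ⟨mem_univ _, hd⟩
      have hself : ∑ y, ∑ x ∈ row (nd w u π.2 :: π.1) B y, K y x =
          ∑ y, ∑ x ∈ row π.1 B y, K y x := by
        refine Finset.sum_congr rfl fun y _ => ?_
        refine Finset.sum_congr ?_ fun _ _ => rfl
        ext x
        rw [phs_row]
        exact ⟨fun h => h.1, fun h => ⟨h, hin y x h⟩⟩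
      rw [← Finset.add_sum_erase F _ hmem, hself]
      have h3 : ∑ v' ∈ F.erase π.2, (-G) ≤
          ∑ v' ∈ F.erase π.2, ∑ y, ∑ x ∈ row (nd w u v' :: π.1) B y, K y x :=
        Finset.sum_le_sum fun v' _ => hlow v'
      rw [Finset.sum_const, nsmul_eq_mul] at h3
      have h4 : ((F.erase π.2).card : ℝ) ≤ s := by
        refine le_trans ?_ hFc
        exact_mod_cast Finset.card_le_card (Finset.erase_subset _ _)
      have h5 := mul_le_mul_of_nonneg_right h4 hG0
      linarith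
    · obtain ⟨i, hi⟩ := hleaf
      have h1 := (hE Y X ι K lY lX δ hδ hK π.1 B).2 i (fun y x hx => hi y x (hin y x hx))
      have h2 : gg Y X δ π.1.length ≤ G := by
        rw [hG]
        refine phs_gg Y X δ hδ ?_
        omega
      have h3 : ∑ v' ∈ F, (-G) ≤
          ∑ v' ∈ F, ∑ y, ∑ x ∈ row (nd w u v' :: π.1) B y, K y x :=
        Finset.sum_le_sum fun v' _ => hlow v'
      rw [Finset.sum_const, nsmul_eq_mul] at h3
      have h5 := mul_le_mul_of_nonneg_right hFc hG0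
      linarith
  rw [hPsum K]
  have h1 := list_sum_le P _ _ hpiece
  refine h1.trans ?_
  have h2 : (P.map (fun π => ∑ v' ∈ F, ∑ y, ∑ x ∈ row (nd w u v' :: π.1) B y, K y x +
      (s + 1) * G)).sum = (P.map (fun π => ∑ v' ∈ F,
        ∑ y, ∑ x ∈ row (nd w u v' :: π.1) B y, K y x)).sum + P.length * ((s + 1) * G) := by
    rw [List.sum_map_add, List.map_const', List.sum_replicate, nsmul_eq_mul]
  rw [h2, list_sum_comm]
  have h3 : ∑ v' ∈ F, (P.map (fun π => ∑ y, ∑ x ∈ row (nd w u v' :: π.1) B y, K y x)).sum =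
      ∑ v' ∈ F, ∑ y, ∑ x ∈ row (nd w u v' :: L) B y, K y x :=
    Finset.sum_congr rfl fun v' _ => (hnode v').symm
  rw [h3]
  have h4 : (P.length : ℝ) ≤ 2 ^ p := by exact_mod_cast hPlen
  have h5 : (P.length : ℝ) * ((s + 1) * G) ≤ 2 ^ p * ((s + 1) * G) :=
    mul_le_mul_of_nonneg_right h4 (by positivity)
  linarith

end Pool.Agent.H33.CPE
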